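import Mathlib
import Pool.Agent.H14.ZsCyc

set_option autoImplicit false

namespace Pool.Agent.Results.MP_4ec1df_co.Theta

open Pool.Agent.H14.ZsCyc

theorem result : ∀ m : ℕ, 2 ≤ m → ∃ c C : ℝ, 0 < c ∧ c ≤ C ∧ ∃ d₀ : ℕ, ∀ d ≥ d₀,
    c * (2 : ℝ) ^ ((d : ℝ) / (m - 1)) ≤ B m d ∧ (B m d : ℝ) ≤ C * (2 : ℝ) ^ ((d : ℝ) / (m - 1)) :=
  main

end Pool.Agent.Results.MP_4ec1df_co.Theta
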